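import Mathlib

/-!
# Combinatorial Banach spaces of families of finite sets

The spaces `X_𝓕` generated by a cover `𝓕` of a set by finite sets, and two criteria for
(not) containing `c₀`.
-/

namespace Pool.Agent.X215.CombBan

open Filter Topology
open scoped ZeroAtInfty

/-- A family of finite subsets of `Ω` which covers `Ω`. -/
structure Cover (Ω : Type) where
  /-- the members of the family -/
  sets : Set (Finset Ω)
  /-- it covers `Ω` -/
  covers : ∀ k : Ω, ∃ F ∈ sets, k ∈ F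

/-- The norm `‖x‖ = sup {∑_{k ∈ F} |x k| : F ∈ 𝓕}` of a finitely supported vector. -/
noncomputable def nrm {Ω : Type} (𝓕 : Cover Ω) (x : Ω →₀ ℝ) : ℝ :=
  sSup {r : ℝ | ∃ F ∈ 𝓕.sets, r = ∑ k ∈ F, |x k|}

/-- The `ℓ₁`-norm. -/
noncomputable def l1 {Ω : Type} (x : Ω →₀ ℝ) : ℝ := ∑ k ∈ x.support, |x k|

theorem sum_le_l1 {Ω : Type} (x : Ω →₀ ℝ) (F : Finset Ω) : ∑ k ∈ F, |x k| ≤ l1 x := by
  classical
  unfold l1
  calc ∑ k ∈ F, |x k| = ∑ k ∈ F ∩ x.support, |x k| := by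
        symm
        refine Finset.sum_subset Finset.inter_subset_left fun k hk hk' => ?_
        have : k ∉ x.support := fun h => hk' (Finset.mem_inter.2 ⟨hk, h⟩)
        rw [Finsupp.notMem_support_iff.1 this, abs_zero]
    _ ≤ ∑ k ∈ x.support, |x k| :=
        Finset.sum_le_sum_of_subset_of_nonneg Finset.inter_subset_right fun _ _ _ => abs_nonneg _

theorem l1_eq {Ω : Type} (x : Ω →₀ ℝ) {S : Finset Ω} (h : x.support ⊆ S) :
    l1 x = ∑ k ∈ S, |x k| := by
  unfold l1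
  refine Finset.sum_subset h fun k _ hk => ?_
  rw [Finsupp.notMem_support_iff.1 hk, abs_zero]

theorem l1_nonneg {Ω : Type} (x : Ω →₀ ℝ) : 0 ≤ l1 x := Finset.sum_nonneg fun _ _ => abs_nonneg _

theorem bddAbove_sums {Ω : Type} (𝓕 : Cover Ω) (x : Ω →₀ ℝ) :
    BddAbove {r : ℝ | ∃ F ∈ 𝓕.sets, r = ∑ k ∈ F, |x k|} := by
  refine ⟨l1 x, ?_⟩
  rintro _ ⟨F, -, rfl⟩
  exact sum_le_l1 x F

theorem le_nrm {Ω : Type} (𝓕 : Cover Ω) (x : Ω →₀ ℝ) {F : Finset Ω} (hF : F ∈ 𝓕.sets) :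
    ∑ k ∈ F, |x k| ≤ nrm 𝓕 x := le_csSup (bddAbove_sums 𝓕 x) ⟨F, hF, rfl⟩

theorem nrm_le {Ω : Type} (𝓕 : Cover Ω) (x : Ω →₀ ℝ) {C : ℝ} (hC : 0 ≤ C)
    (h : ∀ F ∈ 𝓕.sets, ∑ k ∈ F, |x k| ≤ C) : nrm 𝓕 x ≤ C := by
  refine Real.sSup_le ?_ hC
  rintro _ ⟨F, hF, rfl⟩
  exact h F hF

theorem nrm_nonneg {Ω : Type} (𝓕 : Cover Ω) (x : Ω →₀ ℝ) : 0 ≤ nrm 𝓕 x := by
  refine Real.sSup_nonneg ?_
  rintro _ ⟨F, -, rfl⟩
  exact Finset.sum_nonneg fun _ _ => abs_nonneg _

theorem abs_le_nrm {Ω : Type} (𝓕 : Cover Ω) (x : Ω →₀ ℝ) (k : Ω) : |x k| ≤ nrm 𝓕 x := by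
  obtain ⟨F, hF, hk⟩ := 𝓕.covers k
  exact (Finset.single_le_sum (f := fun k => |x k|) (fun _ _ => abs_nonneg _) hk).trans
    (le_nrm 𝓕 x hF)

theorem nrm_zero {Ω : Type} (𝓕 : Cover Ω) : nrm 𝓕 (0 : Ω →₀ ℝ) = 0 :=
  le_antisymm (nrm_le 𝓕 _ le_rfl fun F _ => by
    refine (Finset.sum_eq_zero fun k _ => ?_).le
    exact abs_eq_zero.2 rfl) (nrm_nonneg 𝓕 _)

theorem nrm_add_le {Ω : Type} (𝓕 : Cover Ω) (x y : Ω →₀ ℝ) :
    nrm 𝓕 (x + y) ≤ nrm 𝓕 x + nrm 𝓕 y :=
  nrm_le 𝓕 _ (add_nonneg (nrm_nonneg 𝓕 x) (nrm_nonneg 𝓕 y)) fun F hF => by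
    have h1 : ∑ k ∈ F, |(x + y) k| ≤ ∑ k ∈ F, |x k| + ∑ k ∈ F, |y k| := by
      rw [← Finset.sum_add_distrib]
      exact Finset.sum_le_sum fun k _ => abs_add_le _ _
    exact h1.trans (add_le_add (le_nrm 𝓕 x hF) (le_nrm 𝓕 y hF))

theorem nrm_neg {Ω : Type} (𝓕 : Cover Ω) (x : Ω →₀ ℝ) : nrm 𝓕 (-x) = nrm 𝓕 x := by
  unfold nrm
  simp only [Finsupp.neg_apply, abs_neg]

theorem eq_zero_of_nrm {Ω : Type} (𝓕 : Cover Ω) (x : Ω →₀ ℝ) (hx : nrm 𝓕 x = 0) : x = 0 := by
  refine Finsupp.ext fun k => ?_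
  have := abs_le_nrm 𝓕 x k
  rw [hx] at this
  exact abs_eq_zero.1 (le_antisymm this (abs_nonneg _))

theorem nrm_smul_le {Ω : Type} (𝓕 : Cover Ω) (c : ℝ) (x : Ω →₀ ℝ) :
    nrm 𝓕 (c • x) ≤ |c| * nrm 𝓕 x := by
  refine nrm_le 𝓕 _ (mul_nonneg (abs_nonneg _) (nrm_nonneg 𝓕 x)) fun F hF => ?_
  have h1 : ∑ k ∈ F, |(c • x) k| = |c| * ∑ k ∈ F, |x k| := by
    rw [Finset.mul_sum]
    refine Finset.sum_congr rfl fun k _ => ?_
    rw [Finsupp.smul_apply, smul_eq_mul, abs_mul]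
  exact h1.le.trans (mul_le_mul_of_nonneg_left (le_nrm 𝓕 x hF) (abs_nonneg _))

/-- The space of finitely supported vectors with the norm given by `𝓕`. -/
def C00 {Ω : Type} (_ : Cover Ω) : Type := Ω →₀ ℝ

noncomputable instance {Ω : Type} (𝓕 : Cover Ω) : AddCommGroup (C00 𝓕) :=
  inferInstanceAs (AddCommGroup (Ω →₀ ℝ))

noncomputable instance {Ω : Type} (𝓕 : Cover Ω) : Module ℝ (C00 𝓕) :=
  inferInstanceAs (Module ℝ (Ω →₀ ℝ))

noncomputable instance {Ω : Type} (𝓕 : Cover Ω) : NormedAddCommGroup (C00 𝓕) :=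
  AddGroupNorm.toNormedAddCommGroup
    { toFun := fun x => nrm 𝓕 x
      map_zero' := nrm_zero 𝓕
      add_le' := fun x y => nrm_add_le 𝓕 x y
      neg' := fun x => nrm_neg 𝓕 x
      eq_zero_of_map_eq_zero' := fun x hx => eq_zero_of_nrm 𝓕 x hx }

noncomputable instance {Ω : Type} (𝓕 : Cover Ω) : NormedSpace ℝ (C00 𝓕) where
  norm_smul_le := fun c x => nrm_smul_le 𝓕 c x

/-- A finitely supported vector as an element of the normed space. -/
noncomputable def toC {Ω : Type} (𝓕 : Cover Ω) : (Ω →₀ ℝ) →ₗ[ℝ] C00 𝓕 := LinearMap.id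

theorem norm_toC {Ω : Type} (𝓕 : Cover Ω) (x : Ω →₀ ℝ) : ‖toC 𝓕 x‖ = nrm 𝓕 x := rfl

/-- The space `X_𝓕`: the completion of the finitely supported vectors. -/
abbrev XSpace {Ω : Type} (𝓕 : Cover Ω) : Type := UniformSpace.Completion (C00 𝓕)

/-- A finitely supported vector as an element of `X_𝓕`. -/
noncomputable def toX {Ω : Type} (𝓕 : Cover Ω) : (Ω →₀ ℝ) →ₗ[ℝ] XSpace 𝓕 :=
  (UniformSpace.Completion.toComplₗᵢ (𝕜 := ℝ) (E := C00 𝓕)).toLinearMap.comp (toC 𝓕)

theorem norm_toX {Ω : Type} (𝓕 : Cover Ω) (x : Ω →₀ ℝ) : ‖toX 𝓕 x‖ = nrm 𝓕 x :=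
  UniformSpace.Completion.norm_coe (toC 𝓕 x)

theorem exists_toX {Ω : Type} (𝓕 : Cover Ω) (y : XSpace 𝓕) {ε : ℝ} (hε : 0 < ε) :
    ∃ w : Ω →₀ ℝ, ‖y - toX 𝓕 w‖ < ε := by
  have h1 := UniformSpace.Completion.denseRange_coe (α := C00 𝓕)
  obtain ⟨w, hw⟩ := h1.exists_dist_lt y hε
  rw [dist_eq_norm] at hw
  exact ⟨w, hw⟩

/-- `X` contains a subspace isomorphic to `c₀`. -/
def ContainsC0 (X : Type) [NormedAddCommGroup X] [NormedSpace ℝ X] : Prop :=
  ∃ (T : C₀(ℕ, ℝ) →L[ℝ] X) (c : ℝ), 0 < c ∧ ∀ x, c * ‖x‖ ≤ ‖T x‖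

/-- A finitely supported sequence as an element of `c₀`. -/
noncomputable def ofFin (a : ℕ →₀ ℝ) : C₀(ℕ, ℝ) where
  toFun := a
  continuous_toFun := continuous_of_discreteTopology
  zero_at_infty' := by
    rw [cocompact_eq_cofinite]
    refine tendsto_const_nhds.congr' ?_
    have h1 : {n | a n ≠ 0}.Finite := a.support.finite_toSet.subset fun n hn =>
      Finsupp.mem_support_iff.2 hn
    have h2 : ∀ᶠ n in cofinite, a n = 0 := by
      rw [Filter.eventually_cofinite]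
      exact h1
    exact h2.mono fun n hn => hn.symm

theorem ofFin_apply (a : ℕ →₀ ℝ) (n : ℕ) : ofFin a n = a n := rfl

theorem norm_le_of {f : C₀(ℕ, ℝ)} {C : ℝ} (hC : 0 ≤ C) (h : ∀ n, |f n| ≤ C) : ‖f‖ ≤ C := by
  rw [← ZeroAtInftyContinuousMap.norm_toBCF_eq_norm]
  exact (BoundedContinuousFunction.norm_le hC).2 h

theorem abs_le_norm (f : C₀(ℕ, ℝ)) (n : ℕ) : |f n| ≤ ‖f‖ := by
  rw [← ZeroAtInftyContinuousMap.norm_toBCF_eq_norm]
  exact BoundedContinuousFunction.norm_coe_le_norm f.toBCF n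

theorem sum_apply' (E : Finset ℕ) (g : ℕ → C₀(ℕ, ℝ)) (m : ℕ) :
    (∑ n ∈ E, g n) m = ∑ n ∈ E, g n m := by
  classical
  induction E using Finset.induction_on with
  | empty => simp
  | insert a s ha ih =>
    rw [Finset.sum_insert ha, Finset.sum_insert ha, ZeroAtInftyContinuousMap.add_apply, ih]

theorem norm_sum_le_one (E : Finset ℕ) (ε : ℕ → ℝ) (hε : ∀ n, |ε n| ≤ 1) :
    ‖∑ n ∈ E, ε n • ofFin (Finsupp.single n 1)‖ ≤ 1 := by
  classical
  refine norm_le_of zero_le_one fun m => ?_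
  have h6 : ∀ n, (ε n • ofFin (Finsupp.single n 1)) m = if m = n then ε m else 0 := by
    intro n
    rw [ZeroAtInftyContinuousMap.smul_apply, ofFin_apply, Finsupp.single_apply]
    by_cases hmn : n = m
    · subst hmn; simp
    · rw [if_neg hmn, if_neg (fun h => hmn h.symm), smul_zero]
  rw [sum_apply']
  simp only [h6]
  rw [Finset.sum_ite_eq]
  split_ifs
  · exact hε m
  · simp

/-- If the norm dominates the `ℓ₁`-norm then `X_𝓕` does not contain `c₀`. -/
theorem not_containsC0 {Ω : Type} (𝓕 : Cover Ω) {r : ℝ} (h : ∀ x : Ω →₀ ℝ, l1 x ≤ r * nrm 𝓕 x) :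
    ¬ ContainsC0 (XSpace 𝓕) := by
  classical
  rintro ⟨T, c, hc, hT⟩
  -- approximations of the images of the basis vectors
  have happ : ∀ n : ℕ, ∃ w : Ω →₀ ℝ,
      ‖T (ofFin (Finsupp.single n 1)) - toX 𝓕 w‖ < c / 4 * (1 / 2) ^ n := fun n =>
    exists_toX 𝓕 _ (by positivity)
  choose w hw using happ
  have hKε : ∀ (E : Finset ℕ) (ε : ℕ → ℝ), (∀ n, |ε n| ≤ 1) →
      nrm 𝓕 (∑ n ∈ E, ε n • w n) ≤ ‖T‖ + c / 2 := by
    intro E ε hε
    rw [← norm_toX]
    have h1 : toX 𝓕 (∑ n ∈ E, ε n • w n) = T (∑ n ∈ E, ε n •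
        ofFin (Finsupp.single n 1)) -
          ∑ n ∈ E, ε n • (T (ofFin (Finsupp.single n 1)) - toX 𝓕 (w n)) := by
      rw [map_sum, map_sum, ← Finset.sum_sub_distrib]
      refine Finset.sum_congr rfl fun n _ => ?_
      rw [map_smul, map_smul, ← smul_sub, sub_sub_cancel]
    rw [h1]
    refine (norm_sub_le _ _).trans (add_le_add ?_ ?_)
    · refine (T.le_opNorm _).trans ?_
      have h3 := norm_sum_le_one E ε hε
      have h7 := norm_nonneg T
      nlinarith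
    · refine (norm_sum_le _ _).trans ?_
      have h3 : ∀ n ∈ E, ‖ε n • (T (ofFin (Finsupp.single n 1)) - toX 𝓕 (w n))‖ ≤
          c / 4 * (1 / 2) ^ n := by
        intro n _
        rw [norm_smul, Real.norm_eq_abs]
        have h4 := hw n
        have h5 := hε n
        have h6 := norm_nonneg (T (ofFin (Finsupp.single n 1)) - toX 𝓕 (w n))
        have h7 := abs_nonneg (ε n)
        nlinarith
      refine (Finset.sum_le_sum h3).trans ?_
      rw [← Finset.mul_sum]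
      have h8 : ∑ n ∈ E, (1 / 2 : ℝ) ^ n ≤ 2 := by
        have h9 := Summable.sum_le_tsum E (fun n _ => by positivity)
          (summable_geometric_of_lt_one (by norm_num : (0 : ℝ) ≤ 1 / 2) (by norm_num))
        rw [tsum_geometric_of_lt_one (by norm_num) (by norm_num)] at h9
        norm_num at h9 ⊢
        exact h9
      nlinarith
  -- lower bounds
  have hlow : ∀ n, c / 2 ≤ l1 (w n) := by
    intro n
    have h1 : c ≤ ‖T (ofFin (Finsupp.single n 1))‖ := by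
      have h2 := hT (ofFin (Finsupp.single n 1))
      have h3 : 1 ≤ ‖ofFin (Finsupp.single n 1)‖ := by
        have := abs_le_norm (ofFin (Finsupp.single n 1)) n
        rw [ofFin_apply, Finsupp.single_eq_same, abs_one] at this
        exact this
      nlinarith
    have h2 := hw n
    have h3 : (1 / 2 : ℝ) ^ n ≤ 1 := pow_le_one₀ (by norm_num) (by norm_num)
    have h4 : ‖T (ofFin (Finsupp.single n 1))‖ ≤
        ‖T (ofFin (Finsupp.single n 1)) - toX 𝓕 (w n)‖ + ‖toX 𝓕 (w n)‖ := by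
      have := norm_add_le (T (ofFin (Finsupp.single n 1)) - toX 𝓕 (w n)) (toX 𝓕 (w n))
      rwa [sub_add_cancel] at this
    rw [norm_toX] at h4
    have h5 : nrm 𝓕 (w n) ≤ l1 (w n) := nrm_le 𝓕 _ (l1_nonneg _) fun F _ => sum_le_l1 _ F
    nlinarith
  -- coordinates tend to zero
  have hcoord : ∀ s : Ω, Tendsto (fun n => |w n s|) atTop (𝓝 0) := by
    intro s
    have h1 : Summable fun n => |w n s| := by
      refine summable_of_sum_le (c := ‖T‖ + c / 2) (fun _ => abs_nonneg _) fun E => ?_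
      have h2 := hKε E (fun n => (SignType.sign (w n s) : ℝ)) (fun n => by
        rcases lt_trichotomy (w n s) 0 with h | h | h
        · simp [sign_neg h]
        · simp [h]
        · simp [sign_pos h])
      have h3 := abs_le_nrm 𝓕 (∑ n ∈ E, (SignType.sign (w n s) : ℝ) • w n) s
      rw [Finsupp.finset_sum_apply] at h3
      have h4 : ∑ n ∈ E, ((SignType.sign (w n s) : ℝ) • w n) s =
          ∑ n ∈ E, |w n s| := by
        refine Finset.sum_congr rfl fun n _ => ?_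
        rw [Finsupp.smul_apply, smul_eq_mul, sign_mul_self]
      rw [h4, abs_of_nonneg (Finset.sum_nonneg fun _ _ => abs_nonneg _)] at h3
      exact h3.trans h2
    exact h1.tendsto_atTop_zero
  have hsmall : ∀ S : Finset Ω, ∃ n, ∑ s ∈ S, |w n s| < c / 8 := by
    intro S
    have h1 : Tendsto (fun n => ∑ s ∈ S, |w n s|) atTop (𝓝 (∑ s ∈ S, (0 : ℝ))) :=
      tendsto_finsetSum _ fun s _ => hcoord s
    rw [Finset.sum_const_zero] at h1
    exact (h1.eventually_lt_const (by positivity : (0 : ℝ) < c / 8)).exists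
  -- large sums
  have hlarge : ∀ N : ℕ, ∃ E : Finset ℕ, N * (c / 4) ≤ l1 (∑ n ∈ E, w n) := by
    intro N
    induction N with
    | zero => exact ⟨∅, by simp [l1]⟩
    | succ N ih =>
      obtain ⟨E, hE⟩ := ih
      obtain ⟨S, hS⟩ : ∃ S : Finset Ω, ∀ n ∈ E, (w n).support ⊆ S :=
        ⟨E.biUnion fun n => (w n).support, fun n hn => Finset.subset_biUnion_of_mem
          (fun n => (w n).support) hn⟩
      obtain ⟨n, hn⟩ := hsmall S
      have hnE : n ∉ E := by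
        intro hnE
        have h2 := l1_eq (w n) (hS n hnE)
        have h3 := hlow n
        linarith
      refine ⟨insert n E, ?_⟩
      rw [Finset.sum_insert hnE]
      generalize hy : ∑ n ∈ E, w n = y at hE ⊢
      have hysupp : y.support ⊆ S := by
        intro s hs
        rw [Finsupp.mem_support_iff, ← hy, Finsupp.finset_sum_apply] at hs
        obtain ⟨m, hm, hm'⟩ := Finset.exists_ne_zero_of_sum_ne_zero hs
        exact hS m hm (Finsupp.mem_support_iff.2 hm')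
      have h1 : l1 (w n + y) = ∑ s ∈ S ∪ (w n).support, |(w n + y) s| := by
        refine l1_eq _ ?_
        refine Finsupp.support_add.trans ?_
        rw [Finset.union_comm]
        exact Finset.union_subset_union_left hysupp
      have h2 : Disjoint S ((w n).support \ S) := Finset.disjoint_sdiff
      have h3 : S ∪ (w n).support = S ∪ ((w n).support \ S) := by
        rw [Finset.union_sdiff_self_eq_union]
      rw [h3, Finset.sum_union h2] at h1
      have h4 : l1 y = ∑ s ∈ S, |y s| := l1_eq y hysupp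
      have h5 : ∑ s ∈ S, |y s| - ∑ s ∈ S, |w n s| ≤ ∑ s ∈ S, |(w n + y) s| := by
        rw [← Finset.sum_sub_distrib]
        refine Finset.sum_le_sum fun s _ => ?_
        rw [Finsupp.add_apply]
        have := abs_sub_abs_le_abs_sub (y s) (-(w n s))
        rw [abs_neg, sub_neg_eq_add, add_comm (y s)] at this
        exact this
      have h6 : ∑ s ∈ (w n).support \ S, |(w n + y) s| =
          ∑ s ∈ (w n).support \ S, |w n s| := by
        refine Finset.sum_congr rfl fun s hs => ?_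
        have h7 : y s = 0 := by
          by_contra h
          exact (Finset.mem_sdiff.1 hs).2 (hysupp (Finsupp.mem_support_iff.2 h))
        rw [Finsupp.add_apply, h7, add_zero]
      have h7 : l1 (w n) ≤ ∑ s ∈ S, |w n s| + ∑ s ∈ (w n).support \ S, |w n s| := by
        rw [← Finset.sum_union h2, ← h3]
        exact (l1_eq (w n) Finset.subset_union_right).le
      have h8 := hlow n
      push_cast
      linarith
  -- contradiction
  obtain ⟨N, hN⟩ := exists_nat_gt (|r| * (‖T‖ + c / 2) / (c / 4))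
  obtain ⟨E, hE⟩ := hlarge N
  have h1 := h (∑ n ∈ E, w n)
  have h3 := hKε E (fun _ => 1) (fun _ => by simp)
  simp only [one_smul] at h3
  have h4 : r * nrm 𝓕 (∑ n ∈ E, w n) ≤ |r| * (‖T‖ + c / 2) := by
    have h5 := le_abs_self r
    have h6 := nrm_nonneg 𝓕 (∑ n ∈ E, w n)
    have h7 := abs_nonneg r
    nlinarith
  rw [div_lt_iff₀ (by positivity)] at hN
  linarith

/-- A sequence equivalent to the unit vector basis of `c₀` gives a copy of `c₀`. -/
theorem containsC0_of {Ω : Type} (𝓕 : Cover Ω) (u : ℕ → (Ω →₀ ℝ))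
    (hup : ∀ (E : Finset ℕ) (a : ℕ → ℝ) (M : ℝ), 0 ≤ M → (∀ k ∈ E, |a k| ≤ M) →
      nrm 𝓕 (∑ k ∈ E, a k • u k) ≤ 2 * M)
    (hlow : ∀ (E : Finset ℕ) (a : ℕ → ℝ), ∀ j ∈ E, |a j| ≤ nrm 𝓕 (∑ k ∈ E, a k • u k)) :
    ContainsC0 (XSpace 𝓕) := by
  classical
  have hv : ∀ (E : Finset ℕ) (a : ℕ → ℝ),
      ‖∑ k ∈ E, a k • toX 𝓕 (u k)‖ = nrm 𝓕 (∑ k ∈ E, a k • u k) := by
    intro E a
    rw [← norm_toX, map_sum]
    simp only [map_smul]
  have hsum : ∀ f : C₀(ℕ, ℝ), Summable fun k => f k • toX 𝓕 (u k) := by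
    intro f
    rw [summable_iff_vanishing_norm]
    intro ε hε
    have h1 : Tendsto f cofinite (𝓝 0) := by
      have := f.zero_at_infty'
      rw [cocompact_eq_cofinite] at this
      exact this
    have h2 : ∀ᶠ k in cofinite, |f k| < ε / 4 := by
      have := (h1.abs).eventually_lt_const (by rw [abs_zero]; linarith : |(0 : ℝ)| < ε / 4)
      exact this
    rw [Filter.eventually_cofinite] at h2
    refine ⟨h2.toFinset, fun t ht => ?_⟩
    rw [hv]
    have h3 : ∀ k ∈ t, |f k| ≤ ε / 4 := by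
      intro k hk
      by_contra hcon
      have h4 : k ∈ h2.toFinset := h2.mem_toFinset.2 fun h => hcon h.le
      exact Finset.disjoint_left.1 ht hk h4
    have h5 := hup t f (ε / 4) (by linarith) h3
    linarith
  have hle : ∀ f : C₀(ℕ, ℝ), ‖∑' k, f k • toX 𝓕 (u k)‖ ≤ 2 * ‖f‖ := by
    intro f
    refine le_of_tendsto ((hsum f).hasSum.norm) (Eventually.of_forall fun E => ?_)
    rw [hv]
    exact hup E f ‖f‖ (norm_nonneg _) fun k _ => abs_le_norm f k
  have hge : ∀ f : C₀(ℕ, ℝ), ‖f‖ ≤ ‖∑' k, f k • toX 𝓕 (u k)‖ := by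
    intro f
    refine norm_le_of (norm_nonneg _) fun j => ?_
    refine ge_of_tendsto ((hsum f).hasSum.norm) ?_
    filter_upwards [eventually_ge_atTop {j}] with E hE
    rw [hv]
    exact hlow E f j (Finset.singleton_subset_iff.1 hE)
  let T : C₀(ℕ, ℝ) →ₗ[ℝ] XSpace 𝓕 :=
    { toFun := fun f => ∑' k, f k • toX 𝓕 (u k)
      map_add' := fun f g => by
        rw [← (hsum f).tsum_add (hsum g)]
        refine tsum_congr fun k => ?_
        rw [ZeroAtInftyContinuousMap.add_apply, add_smul]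
      map_smul' := fun c f => by
        rw [RingHom.id_apply, ← (hsum f).tsum_const_smul]
        refine tsum_congr fun k => ?_
        rw [ZeroAtInftyContinuousMap.smul_apply, smul_assoc] }
  refine ⟨T.mkContinuous 2 hle, 1, one_pos, fun f => ?_⟩
  rw [one_mul]
  exact hge f

end Pool.Agent.X215.CombBan
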